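import Mathlib

namespace Pool.Agent.Lib.MP_9c9d6b_nt

open Polynomial

/-- The remainders of the greedy expansion of 1 in base β: r 0 = 1, r n = β r (n-1) - ⌊β r (n-1)⌋. -/
noncomputable def rem (β : ℝ) : ℕ → ℝ
  | 0 => 1
  | n + 1 => β * rem β n - (⌊β * rem β n⌋ : ℤ)

/-- The digit c n = ⌊β r (n-1)⌋ of the greedy expansion of 1 (used for n ≥ 1). -/
noncomputable def digit (β : ℝ) (n : ℕ) : ℤ := ⌊β * rem β (n - 1)⌋

/-- β is a Salem number: an algebraic integer greater than 1 whose other conjugates (complex roots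
of its minimal polynomial) have modulus at most 1, at least one having modulus exactly 1. -/
def IsSalem (β : ℝ) : Prop :=
  IsIntegral ℤ β ∧ 1 < β ∧
    (∀ α : ℂ, aeval α (minpoly ℤ β) = 0 → α ≠ (β : ℂ) → ‖α‖ ≤ 1) ∧
    ∃ α : ℂ, aeval α (minpoly ℤ β) = 0 ∧ α ≠ (β : ℂ) ∧ ‖α‖ = 1

/-- p ≥ 1 and c (n+m) = c (n+m+p) for all n ≥ 1. -/
def PeriodicWith (β : ℝ) (m p : ℕ) : Prop :=
  1 ≤ p ∧ ∀ n : ℕ, 1 ≤ n → digit β (n + m) = digit β (n + m + p)

/-- m is the preperiod length: the least m for which some p works. -/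
def IsPreperiodLength (β : ℝ) (m : ℕ) : Prop := IsLeast {m' : ℕ | ∃ p, PeriodicWith β m' p} m

/-- p is the period length: the least p for which some m works. -/
def IsPeriodLength (β : ℝ) (p : ℕ) : Prop := IsLeast {p' : ℕ | ∃ m, PeriodicWith β m p'} p

/-- P k = x^k - c 1 x^(k-1) - ... - c k. -/
noncomputable def partPoly (β : ℝ) (k : ℕ) : ℤ[X] :=
  X ^ k - ∑ i ∈ Finset.Icc 1 k, C (digit β i) * X ^ (k - i)

/-- The companion polynomial R = P (m+p) - P m. -/
noncomputable def companion (β : ℝ) (m p : ℕ) : ℤ[X] := partPoly β (m + p) - partPoly β m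

end Pool.Agent.Lib.MP_9c9d6b_nt
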