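import Mathlib

namespace Pool.Agent.Lib.MP_9c9d6b_nt

open Polynomial

noncomputable def P6 : ℤ[X] := X ^ 6 - 5 * X ^ 5 - 3 * X ^ 4 + 2 * X ^ 3 - 3 * X ^ 2 - 5 * X + 1

lemma P6_monic : P6.Monic := by
  unfold P6
  monicity!

lemma P6_natDegree : P6.natDegree = 6 := by
  unfold P6
  compute_degree!

instance fact5 : Fact (Nat.Prime 5) := ⟨by norm_num⟩

noncomputable def P5 : (ZMod 5)[X] := X ^ 6 + 2 * X ^ 4 + 2 * X ^ 3 + 2 * X ^ 2 + 1

lemma P6_map : P6.map (Int.castRingHom (ZMod 5)) = P5 := by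
  unfold P6 P5
  simp only [Polynomial.map_add, Polynomial.map_sub, Polynomial.map_mul, Polynomial.map_pow,
    map_X, Polynomial.map_one, Polynomial.map_ofNat]
  have h5 : (5 : (ZMod 5)[X]) = 0 := by
    have : (5 : (ZMod 5)[X]) = C (5 : ZMod 5) := rfl
    rw [this]
    have h : (5 : ZMod 5) = 0 := by decide
    rw [h]; simp
  linear_combination (-X ^ 5 - X ^ 4 - X ^ 2 - X) * h5

lemma P5_monic : P5.Monic := by
  unfold P5
  monicity!

lemma P5_natDegree : P5.natDegree = 6 := by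
  unfold P5
  compute_degree!

lemma cubic_form (q : (ZMod 5)[X]) (hq : q.natDegree ≤ 3) :
    q = C (q.coeff 3) * X ^ 3 + C (q.coeff 2) * X ^ 2 + C (q.coeff 1) * X + C (q.coeff 0) := by
  conv_lhs => rw [q.as_sum_range' 4 (by omega)]
  simp [Finset.sum_range_succ, ← C_mul_X_pow_eq_monomial]
  ring

lemma coeffs_zero (a b c : ZMod 5) (h : C a * X ^ 2 + C b * X + C c = (0 : (ZMod 5)[X])) :
    a = 0 ∧ b = 0 ∧ c = 0 := by
  have h2 := congrArg (fun f => coeff f 2) h
  have h1 := congrArg (fun f => coeff f 1) h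
  have h0 := congrArg (fun f => coeff f 0) h
  simp [coeff_X, coeff_C] at h2 h1 h0
  exact ⟨h2, h1, h0⟩

lemma no_dvd (q : (ZMod 5)[X]) (s : (ZMod 5)[X]) (a b c : ZMod 5)
    (hdeg : (C a * X ^ 2 + C b * X + C c : (ZMod 5)[X]).degree < q.degree)
    (h : P5 = q * s + (C a * X ^ 2 + C b * X + C c)) (hd : q ∣ P5) : a = 0 ∧ b = 0 ∧ c = 0 := by
  apply coeffs_zero
  have : q ∣ (C a * X ^ 2 + C b * X + C c) := by
    have e : (C a * X ^ 2 + C b * X + C c) = P5 - q * s := by rw [h]; ring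
    rw [e]
    exact dvd_sub hd (dvd_mul_right _ _)
  exact eq_zero_of_dvd_of_degree_lt this hdeg

lemma P5_irred : Irreducible P5 := by
  have hne : P5 ≠ 1 := by
    intro h
    have := P5_natDegree
    rw [h] at this
    simp at this
  rw [P5_monic.irreducible_iff_lt_natDegree_lt hne]
  intro q hq hdeg hd
  rw [P5_natDegree] at hdeg
  simp only [Finset.mem_Ioc] at hdeg
  obtain ⟨h0, h3⟩ := hdeg
  have hform := cubic_form q (by omega)
  have hdq : q.degree = q.natDegree := degree_eq_natDegree hq.ne_zero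
  have hlead : q.coeff q.natDegree = 1 := hq.coeff_natDegree
  have hcases : q.natDegree = 1 ∨ q.natDegree = 2 ∨ q.natDegree = 3 := by omega
  generalize hc : q.coeff 0 = c at hform
  rcases hcases with h | h | h
  · have e3 : q.coeff 3 = 0 := coeff_eq_zero_of_natDegree_lt (by omega)
    have e2 : q.coeff 2 = 0 := coeff_eq_zero_of_natDegree_lt (by omega)
    rw [h] at hlead
    rw [e3, e2, hlead] at hform
    have key := no_dvd q
      (X ^ 5 - C c * X ^ 4 + (C c ^ 2 + 2) * X ^ 3 + (2 - 2 * C c - C c ^ 3) * X ^ 2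
        + (2 - 2 * C c + 2 * C c ^ 2 + C c ^ 4) * X
        - (2 * C c - 2 * C c ^ 2 + 2 * C c ^ 3 + C c ^ 5)) 0 0
      (1 + 2 * c ^ 2 - 2 * c ^ 3 + 2 * c ^ 4 + c ^ 6)
      (by
        rw [hdq, h]
        simp only [map_zero, zero_mul, zero_add]
        exact lt_of_le_of_lt degree_C_le (by norm_num))
      (by
        rw [hform]; unfold P5
        simp only [map_zero, map_one, map_add, map_sub, map_mul, map_pow, map_ofNat]
        ring) hd
    have := key.2.2
    revert this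
    generalize c = x
    revert x
    decide
  · have e3 : q.coeff 3 = 0 := coeff_eq_zero_of_natDegree_lt (by omega)
    rw [h] at hlead
    rw [e3, hlead] at hform
    generalize hb : q.coeff 1 = b at hform
    have key := no_dvd q
      (X ^ 4 + (0 - C b) * X ^ 3 + (2 - C c + C b ^ 2) * X ^ 2
        + (2 - 2 * C b + 2 * C b * C c - C b ^ 3) * X ^ 1
        + (2 - 2 * C c + C c ^ 2 - 2 * C b + 2 * C b ^ 2 - 3 * C b ^ 2 * C c + C b ^ 4)) 0
      (0 - 2 * c - 2 * b + 4 * b * c - 3 * b * c ^ 2 + 2 * b ^ 2 - 2 * b ^ 3 + 4 * b ^ 3 * c - b ^ 5)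
      (1 - 2 * c + 2 * c ^ 2 - c ^ 3 + 2 * b * c - 2 * b ^ 2 * c + 3 * b ^ 2 * c ^ 2 - b ^ 4 * c)
      (by
        rw [hdq, h]
        simp only [map_zero, zero_mul, zero_add]
        exact lt_of_le_of_lt degree_linear_le (by norm_num))
      (by
        rw [hform]; unfold P5
        simp only [map_zero, map_one, map_add, map_sub, map_mul, map_pow, map_ofNat]
        ring) hd
    have := key.2
    revert this
    generalize c = x
    generalize b = y
    revert x y
    decide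
  · rw [h] at hlead
    rw [hlead] at hform
    generalize hb : q.coeff 1 = b at hform
    generalize ha : q.coeff 2 = a at hform
    have key := no_dvd q
      (X ^ 3 + (0 - C a) * X ^ 2 + (2 - C b + C a ^ 2) * X ^ 1
        + (2 - C c - 2 * C a + 2 * C a * C b - C a ^ 3))
      (2 - 2 * b + b ^ 2 - 2 * a + 2 * a * c + 2 * a ^ 2 - 3 * a ^ 2 * b + a ^ 4)
      (0 - 2 * c - 2 * b + 2 * b * c + 2 * a * b - 2 * a * b ^ 2 - a ^ 2 * c + a ^ 3 * b)
      (1 - 2 * c + c ^ 2 + 2 * a * c - 2 * a * b * c + a ^ 3 * c)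
      (by
        rw [hdq, h]
        exact lt_of_le_of_lt degree_quadratic_le (by norm_num))
      (by
        rw [hform]; unfold P5
        simp only [map_zero, map_one, map_add, map_sub, map_mul, map_pow, map_ofNat]
        ring) hd
    revert key
    generalize c = x
    generalize b = y
    generalize a = z
    revert x y z
    decide +kernel

lemma P6_irred : Irreducible P6 := by
  apply Monic.irreducible_of_irreducible_map (Int.castRingHom (ZMod 5)) P6 P6_monic
  rw [P6_map]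
  exact P5_irred

lemma minpoly_eq (β : ℝ) (h : aeval β P6 = 0) : IsIntegral ℤ β ∧ minpoly ℤ β = P6 := by
  have hi : IsIntegral ℤ β := ⟨P6, P6_monic, by simpa [aeval_def] using h⟩
  refine ⟨hi, ?_⟩
  have hd : minpoly ℤ β ∣ P6 := minpoly.isIntegrallyClosed_dvd hi h
  have hirr : Irreducible (minpoly ℤ β) := minpoly.irreducible hi
  exact eq_of_monic_of_associated (minpoly.monic hi) P6_monic
    (hirr.associated_of_dvd P6_irred hd)

lemma aeval_P6 {A : Type*} [CommRing A] (x : A) :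
    aeval x P6 = x ^ 6 - 5 * x ^ 5 - 3 * x ^ 4 + 2 * x ^ 3 - 3 * x ^ 2 - 5 * x + 1 := by
  simp [P6, map_ofNat]

/-- existence of the root with tight bounds -/
lemma exists_beta : ∃ β : ℝ, aeval β P6 = 0 ∧
    (550242101919825345456123986 : ℝ) / 10 ^ 26 ≤ β ∧
    β ≤ (550242101919825345456123987 : ℝ) / 10 ^ 26 := by
  have hc : ContinuousOn
      (fun x : ℝ => x ^ 6 - 5 * x ^ 5 - 3 * x ^ 4 + 2 * x ^ 3 - 3 * x ^ 2 - 5 * x + 1)
      (Set.Icc ((550242101919825345456123986 : ℝ) / 10 ^ 26)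
        ((550242101919825345456123987 : ℝ) / 10 ^ 26)) := by fun_prop
  have := intermediate_value_Icc (by norm_num) hc
  obtain ⟨β, hβ, h0⟩ := this (a := 0) ⟨by norm_num, by norm_num⟩
  exact ⟨β, by rw [aeval_P6]; exact h0, hβ.1, hβ.2⟩

lemma unit_of_quad (α : ℂ) (s : ℝ) (hs1 : -2 < s) (hs2 : s < 2) (h : α ^ 2 - s * α + 1 = 0) :
    ‖α‖ = 1 := by
  have hre := congrArg Complex.re h
  have him := congrArg Complex.im h
  simp [pow_two] at hre him
  have hn : α.re ^ 2 + α.im ^ 2 = 1 := by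
    have : α.im * (2 * α.re - s) = 0 := by linarith
    rcases mul_eq_zero.mp this with h1 | h1
    · exfalso
      rw [h1] at hre
      nlinarith [sq_nonneg (2 * α.re - s)]
    · have : s = 2 * α.re := by linarith
      rw [this] at hre
      nlinarith
  have : ‖α‖ ^ 2 = 1 := by rw [Complex.sq_norm, Complex.normSq_apply]; nlinarith
  have h0 := norm_nonneg α
  nlinarith

lemma conj_le (β : ℝ) (h : aeval β P6 = 0) (h1 : 11 / 2 ≤ β) (h2 : β ≤ 551 / 100) (α : ℂ)
    (hα : aeval α P6 = 0) (hne : α ≠ β) : ‖α‖ ≤ 1 := by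
  rw [aeval_P6] at h hα
  have hβ0 : β ≠ 0 := by linarith
  have hα0 : α ≠ 0 := by
    rintro rfl
    simp at hα
  set t : ℝ := β + β⁻¹ with ht
  have hinv : β * β⁻¹ = 1 := mul_inv_cancel₀ hβ0
  have hi1 : 18 / 100 ≤ β⁻¹ := by nlinarith
  have hi2 : β⁻¹ ≤ 19 / 100 := by nlinarith
  have hg : t ^ 3 - 5 * t ^ 2 - 6 * t + 12 = 0 := by
    have : β ^ 3 * (t ^ 3 - 5 * t ^ 2 - 6 * t + 12) = 0 := by
      rw [← h, ht]; field_simp; ring
    exact (mul_eq_zero.mp this).resolve_left (pow_ne_zero _ hβ0)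
  set y : ℂ := α + α⁻¹ with hy
  have hgy : y ^ 3 - 5 * y ^ 2 - 6 * y + 12 = 0 := by
    have : α ^ 3 * (y ^ 3 - 5 * y ^ 2 - 6 * y + 12) = 0 := by
      rw [← hα, hy]; field_simp; ring
    exact (mul_eq_zero.mp this).resolve_left (pow_ne_zero _ hα0)
  have hgc : (t : ℂ) ^ 3 - 5 * (t : ℂ) ^ 2 - 6 * t + 12 = 0 := by exact_mod_cast hg
  have hfac : (y - t) * (y ^ 2 + (t - 5) * y + (t ^ 2 - 5 * t - 6)) = 0 := by
    linear_combination hgy - hgc
  have hquad : α ^ 2 - y * α + 1 = 0 := by rw [hy]; field_simp; ring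
  rcases mul_eq_zero.mp hfac with h3 | h3
  · have hyt : y = t := sub_eq_zero.mp h3
    have hβc : (β : ℂ) ≠ 0 := by exact_mod_cast hβ0
    have : (α - β) * (α - (β⁻¹ : ℝ)) = 0 := by
      rw [hyt, ht] at hquad
      push_cast at hquad ⊢
      have e : (β : ℂ) * (β : ℂ)⁻¹ = 1 := mul_inv_cancel₀ hβc
      linear_combination hquad + e
    rcases mul_eq_zero.mp this with h4 | h4
    · exact absurd (sub_eq_zero.mp h4) hne
    · rw [sub_eq_zero.mp h4, Complex.norm_real, Real.norm_eq_abs, abs_of_nonneg (by linarith)]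
      linarith
  · have hre := congrArg Complex.re h3
    have him := congrArg Complex.im h3
    simp [pow_two] at hre him
    have ht1 : 568 / 100 ≤ t := by linarith
    have ht2 : t ≤ 570 / 100 := by linarith
    have hv : t * t - 5 * t - 6 < -2 := by nlinarith
    have hv2 : -22 / 10 < t * t - 5 * t - 6 := by nlinarith
    have hyim : y.im = 0 := by
      have : y.im * (2 * y.re + (t - 5)) = 0 := by linarith
      rcases mul_eq_zero.mp this with h5 | h5
      · exact h5
      · exfalso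
        have : y.re = -(t - 5) / 2 := by linarith
        rw [this] at hre
        nlinarith [sq_nonneg y.im, sq_nonneg (t - 5)]
    rw [hyim] at hre
    have hyre : y = (y.re : ℂ) := by
      apply Complex.ext <;> simp [hyim]
    rw [hyre] at hquad
    apply le_of_eq
    apply unit_of_quad α y.re _ _ hquad
    · by_contra hc
      push Not at hc
      nlinarith
    · by_contra hc
      push Not at hc
      nlinarith

lemma exists_unit : ∃ α : ℂ, aeval α P6 = 0 ∧ ‖α‖ = 1 := by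
  have hc : ContinuousOn (fun x : ℝ => x ^ 3 - 5 * x ^ 2 - 6 * x + 12) (Set.Icc 1 (3 / 2)) := by
    fun_prop
  have := intermediate_value_Icc' (by norm_num) hc
  obtain ⟨s, hs, h0⟩ := this (a := 0) ⟨by norm_num, by norm_num⟩
  simp only at h0
  have hpos : 0 ≤ 1 - s ^ 2 / 4 := by nlinarith [hs.1, hs.2]
  set w : ℝ := Real.sqrt (1 - s ^ 2 / 4) with hw
  have hw2 : w ^ 2 = 1 - s ^ 2 / 4 := Real.sq_sqrt hpos
  have hquad : ((s / 2 : ℝ) + w * Complex.I : ℂ) ^ 2 - s * ((s / 2 : ℝ) + w * Complex.I) + 1 = 0 := by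
    have hw2c : (w : ℂ) ^ 2 = 1 - (s : ℂ) ^ 2 / 4 := by exact_mod_cast hw2
    push_cast
    linear_combination (w : ℂ) ^ 2 * Complex.I_sq - hw2c
  refine ⟨_, ?_, unit_of_quad _ s (by linarith [hs.1]) (by linarith [hs.2]) hquad⟩
  rw [aeval_P6]
  generalize ((s / 2 : ℝ) + w * Complex.I : ℂ) = α at hquad
  have h0c : (s : ℂ) ^ 3 - 5 * (s : ℂ) ^ 2 - 6 * s + 12 = 0 := by exact_mod_cast h0
  linear_combination
    (α ^ 4 + (s - 5) * α ^ 3 + (s ^ 2 - 5 * s - 4) * α ^ 2 + (s - 5) * α + 1) * hquad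
      + α ^ 3 * h0c

end Pool.Agent.Lib.MP_9c9d6b_nt
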