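import Pool.Agent.Lib.MP_9c9d6b_nt.Defs
import Pool.Agent.Lib.MP_9c9d6b_nt.Poly

namespace Pool.Agent.Lib.MP_9c9d6b_nt

open Polynomial

/-- the digits c 1, ..., c 33 -/
def dl : List ℤ :=
  [5, 2, 4, 1, 0, 4, 0, 5, 1, 0, 0, 4, 2, 2, 1, 2, 4, 1, 4, 0, 3, 3, 5, 0, 5, 0, 4, 0, 1, 4, 2, 4, 4]

/-- d n = c (n+1) -/
def d (n : ℕ) : ℤ := dl.getD n 0

def fq (t : ℚ) : ℕ → ℚ
  | 0 => 1
  | n + 1 => t * fq t n - d n

def loq : ℚ := 550242101919825345456123986 / 10 ^ 26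
def hiq : ℚ := 550242101919825345456123987 / 10 ^ 26

lemma check : ∀ n < 33, 0 ≤ fq loq (n + 1) ∧ fq hiq (n + 1) < 1 := by
  decide +kernel

lemma rem_bounds (β : ℝ) (h1 : (loq : ℝ) ≤ β) (h2 : β ≤ (hiq : ℝ)) :
    ∀ n ≤ 33, ((fq loq n : ℚ) : ℝ) ≤ rem β n ∧ rem β n ≤ ((fq hiq n : ℚ) : ℝ) ∧
      (∀ k < n, ⌊β * rem β k⌋ = d k) := by
  have hlo : (0 : ℝ) ≤ (loq : ℝ) := by unfold loq; norm_num
  intro n
  induction n with
  | zero => intro _; simp [fq, rem]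
  | succ n ih =>
    intro hn
    obtain ⟨a1, a2, a3⟩ := ih (by omega)
    have hf0 : (0 : ℝ) ≤ ((fq loq n : ℚ) : ℝ) := by
      rcases n with _ | n
      · simp [fq]
      · exact_mod_cast (check n (by omega)).1
    obtain ⟨c1, c2⟩ := check n (by omega)
    have c1' : (0 : ℝ) ≤ (loq : ℝ) * ((fq loq n : ℚ) : ℝ) - (d n : ℝ) := by
      have : ((fq loq (n + 1) : ℚ) : ℝ) = (loq : ℝ) * ((fq loq n : ℚ) : ℝ) - (d n : ℝ) := by
        simp [fq]
      rw [← this]; exact_mod_cast c1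
    have c2' : (hiq : ℝ) * ((fq hiq n : ℚ) : ℝ) - (d n : ℝ) < 1 := by
      have : ((fq hiq (n + 1) : ℚ) : ℝ) = (hiq : ℝ) * ((fq hiq n : ℚ) : ℝ) - (d n : ℝ) := by
        simp [fq]
      rw [← this]; exact_mod_cast c2
    have l1 : (loq : ℝ) * ((fq loq n : ℚ) : ℝ) ≤ β * rem β n :=
      mul_le_mul h1 a1 hf0 (by linarith)
    have l2 : β * rem β n ≤ (hiq : ℝ) * ((fq hiq n : ℚ) : ℝ) :=
      mul_le_mul h2 a2 (by linarith) (by linarith)
    have hfl : ⌊β * rem β n⌋ = d n := by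
      rw [Int.floor_eq_iff]
      constructor <;> linarith
    refine ⟨?_, ?_, ?_⟩
    · simp only [fq, rem, hfl]; push_cast; linarith
    · simp only [fq, rem, hfl]; push_cast; linarith
    · intro k hk
      rcases Nat.lt_succ_iff_lt_or_eq.mp hk with h | h
      · exact a3 k h
      · rw [h]; exact hfl

lemma digit_eq (β : ℝ) (h1 : (loq : ℝ) ≤ β) (h2 : β ≤ (hiq : ℝ)) (k : ℕ) (hk : k < 33) :
    digit β (k + 1) = d k := by
  unfold digit
  simpa using (rem_bounds β h1 h2 33 le_rfl).2.2 k hk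

lemma partPoly_succ (β : ℝ) (k : ℕ) :
    partPoly β (k + 1) = X * partPoly β k - C (digit β (k + 1)) := by
  unfold partPoly
  rw [Finset.sum_Icc_succ_top (by omega), mul_sub, Finset.mul_sum]
  have : ∑ i ∈ Finset.Icc 1 k, C (digit β i) * X ^ (k + 1 - i)
      = ∑ i ∈ Finset.Icc 1 k, X * (C (digit β i) * (X : ℤ[X]) ^ (k - i)) := by
    apply Finset.sum_congr rfl
    intro i hi
    have : k + 1 - i = (k - i) + 1 := by
      have := (Finset.mem_Icc.mp hi).2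
      omega
    rw [this]; ring
  rw [this]
  simp only [Nat.sub_self, pow_zero, mul_one]
  ring

lemma aeval_partPoly (β : ℝ) (k : ℕ) : aeval β (partPoly β k) = rem β k := by
  induction k with
  | zero => simp [partPoly, rem]
  | succ k ih =>
    rw [partPoly_succ]
    simp only [map_sub, map_mul, aeval_X, ih, aeval_C, rem, digit]
    simp

noncomputable def pp : ℕ → ℤ[X]
  | 0 => 1
  | n + 1 => X * pp n - C (d n)

lemma partPoly_eq (β : ℝ) (h1 : (loq : ℝ) ≤ β) (h2 : β ≤ (hiq : ℝ)) :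
    ∀ k ≤ 33, partPoly β k = pp k := by
  intro k
  induction k with
  | zero => intro _; simp [partPoly, pp]
  | succ k ih =>
    intro hk
    rw [partPoly_succ, ih (by omega), digit_eq β h1 h2 k (by omega), pp]

noncomputable def Q27 : ℤ[X] :=
  X ^ 27 + X ^ 25 - X ^ 24 + 2 * X ^ 20 - X ^ 19 + X ^ 18 - 2 * X ^ 17 + X ^ 16 + X ^ 14 + X ^ 13
    - X ^ 12 + X ^ 11 - 2 * X ^ 10 + 2 * X ^ 9 - X ^ 8 + 2 * X ^ 7 - X ^ 3 + X ^ 2 + 1

lemma pp_eq : pp 33 - pp 1 = P6 * Q27 := by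
  simp only [pp, d, dl, P6, Q27, List.getD_cons_succ, List.getD_cons_zero, map_ofNat, map_zero,
    map_one]
  ring

lemma Q27_natDegree : Q27.natDegree = 27 := by
  unfold Q27
  compute_degree!

lemma Q27_not_recip : Q27.reverse ≠ Q27 := by
  intro h
  have := congrArg (fun f => coeff f 9) h
  simp only [coeff_reverse, Q27_natDegree] at this
  rw [revAt_le (by norm_num)] at this
  simp [Q27, coeff_X_pow, coeff_one] at this

lemma companion_eq (β : ℝ) (h1 : (loq : ℝ) ≤ β) (h2 : β ≤ (hiq : ℝ)) :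
    companion β 1 32 = P6 * Q27 := by
  unfold companion
  rw [partPoly_eq β h1 h2 _ (by norm_num), partPoly_eq β h1 h2 _ (by norm_num)]
  exact pp_eq

lemma rem_period (β : ℝ) (h : aeval β P6 = 0) (h1 : (loq : ℝ) ≤ β) (h2 : β ≤ (hiq : ℝ)) (n : ℕ) :
    rem β (n + 1 + 32) = rem β (n + 1) := by
  induction n with
  | zero =>
    have := congrArg (aeval β) (companion_eq β h1 h2)
    rw [map_mul, h, zero_mul, companion, map_sub, aeval_partPoly, aeval_partPoly] at this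
    linarith
  | succ n ih =>
    have e : n + 1 + 1 + 32 = (n + 1 + 32) + 1 := by ring
    rw [e, rem, ih, ← rem]

lemma digit_period (β : ℝ) (h : aeval β P6 = 0) (h1 : (loq : ℝ) ≤ β) (h2 : β ≤ (hiq : ℝ)) (n : ℕ) :
    digit β (n + 2 + 32) = digit β (n + 2) := by
  unfold digit
  have e1 : n + 2 + 32 - 1 = n + 1 + 32 := by omega
  have e2 : n + 2 - 1 = n + 1 := by omega
  rw [e1, e2, rem_period β h h1 h2]

lemma digit_mod (β : ℝ) (h : aeval β P6 = 0) (h1 : (loq : ℝ) ≤ β) (h2 : β ≤ (hiq : ℝ)) (n : ℕ) :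
    digit β (n + 2) = d (n % 32 + 1) := by
  induction n using Nat.strong_induction_on with
  | _ n ih =>
    by_cases hn : n < 32
    · rw [Nat.mod_eq_of_lt hn]
      exact digit_eq β h1 h2 (n + 1) (by omega)
    · obtain ⟨m, rfl⟩ : ∃ m, n = m + 32 := ⟨n - 32, by omega⟩
      have e : m + 32 + 2 = m + 2 + 32 := by ring
      rw [e, digit_period β h h1 h2, ih m (by omega), Nat.add_mod_right]

lemma periodicWith (β : ℝ) (h : aeval β P6 = 0) (h1 : (loq : ℝ) ≤ β) (h2 : β ≤ (hiq : ℝ)) :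
    PeriodicWith β 1 32 := by
  refine ⟨by norm_num, fun n hn => ?_⟩
  obtain ⟨m, rfl⟩ : ∃ m, n = m + 1 := ⟨n - 1, by omega⟩
  exact (digit_period β h h1 h2 m).symm

lemma preperiod (β : ℝ) (h : aeval β P6 = 0) (h1 : (loq : ℝ) ≤ β) (h2 : β ≤ (hiq : ℝ)) :
    IsPreperiodLength β 1 := by
  refine ⟨⟨32, periodicWith β h h1 h2⟩, ?_⟩
  rintro m ⟨p, hp, hper⟩
  by_contra hm
  have hm0 : m = 0 := by omega
  subst hm0
  obtain ⟨q, rfl⟩ : ∃ q, p = q + 1 := ⟨p - 1, by omega⟩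
  have a := hper 1 le_rfl
  have b := hper 2 (by norm_num)
  have e1 : 1 + 0 + (q + 1) = q + 2 := by ring
  have e2 : 2 + 0 + (q + 1) = (q + 1) + 2 := by ring
  rw [e1, digit_mod β h h1 h2, digit_eq β h1 h2 0 (by norm_num)] at a
  rw [e2, digit_mod β h h1 h2 (q + 1), digit_eq β h1 h2 1 (by norm_num), Nat.add_mod] at b
  have hlt : q % 32 < 32 := Nat.mod_lt _ (by norm_num)
  have key : ∀ r < 32, ¬ (d 0 = d (r + 1) ∧ d 1 = d ((r + 1 % 32) % 32 + 1)) := by decide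
  exact key _ hlt ⟨a, b⟩

lemma period (β : ℝ) (h : aeval β P6 = 0) (h1 : (loq : ℝ) ≤ β) (h2 : β ≤ (hiq : ℝ)) :
    IsPeriodLength β 32 := by
  refine ⟨⟨1, periodicWith β h h1 h2⟩, ?_⟩
  rintro p ⟨m, hp, hper⟩
  by_contra hlt
  push Not at hlt
  have key : ∀ p < 32, 1 ≤ p → ∃ j < 32, d (j + 1) ≠ d ((j + p) % 32 + 1) := by decide
  obtain ⟨j, hj, hne⟩ := key p hlt hp
  have a := hper (31 * m + j + 2) (by omega)
  have e1 : 31 * m + j + 2 + m = (32 * m + j) + 2 := by ring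
  have e2 : (32 * m + j) + 2 + p = (32 * m + (j + p)) + 2 := by ring
  rw [e1, e2, digit_mod β h h1 h2, digit_mod β h h1 h2, Nat.mul_add_mod, Nat.mul_add_mod,
    Nat.mod_eq_of_lt hj] at a
  exact hne a

theorem main : ∃ β : ℝ, IsSalem β ∧
    minpoly ℤ β = X ^ 6 - 5 * X ^ 5 - 3 * X ^ 4 + 2 * X ^ 3 - 3 * X ^ 2 - 5 * X + 1 ∧
    (minpoly ℤ β).natDegree = 6 ∧ IsPreperiodLength β 1 ∧ IsPeriodLength β 32 ∧
    ∃ Q : ℤ[X], companion β 1 32 = minpoly ℤ β * Q ∧ Q.reverse ≠ Q := by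
  obtain ⟨β, h, b1, b2⟩ := exists_beta
  have h1 : (loq : ℝ) ≤ β := by unfold loq; push_cast; exact b1
  have h2 : β ≤ (hiq : ℝ) := by unfold hiq; push_cast; exact b2
  obtain ⟨hi, hm⟩ := minpoly_eq β h
  have c1 : 11 / 2 ≤ β := le_trans (by norm_num) b1
  have c2 : β ≤ 551 / 100 := le_trans b2 (by norm_num)
  refine ⟨β, ⟨hi, by linarith, ?_, ?_⟩, hm, by rw [hm]; exact P6_natDegree,
    preperiod β h h1 h2, period β h h1 h2, Q27, by rw [hm]; exact companion_eq β h1 h2,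
    Q27_not_recip⟩
  · rw [hm]; exact conj_le β h c1 c2
  · rw [hm]
    obtain ⟨α, ha, hn⟩ := exists_unit
    refine ⟨α, ha, ?_, hn⟩
    rintro rfl
    rw [Complex.norm_real, Real.norm_eq_abs, abs_of_nonneg (by linarith)] at hn
    linarith

end Pool.Agent.Lib.MP_9c9d6b_nt
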